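import Pool.Agent.Helper34.SS.Final

/-!
# Semisplaying (MP_fec8f2_lc): simulation of offline algorithms, competitiveness and monotonicity

The definitions of binary search trees, rotations, the offline optimum and the semisplaying rule are in
`Pool.Agent.Helper34.SS.Defs`.
-/

set_option autoImplicit false

open Pool.Agent.SS Pool.Agent.SS.BT

namespace Pool.Agent.Results.MP_fec8f2_lc.SimulationTheorem

/-- `T` is a search tree on the keys `1, ..., n`. -/
def OnKeys (n : ℕ) (T : BT) : Prop := T.keys = List.range' 1 n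

/-- `σ` is an access sequence over the keys `1, ..., n`. -/
def Accesses (n : ℕ) (σ : List ℕ) : Prop := ∀ x ∈ σ, 1 ≤ x ∧ x ≤ n

/-- Semisplaying is `K`-competitive on trees with `n` keys. -/
def Competitive (n K : ℕ) : Prop :=
  ∀ (T : BT) (σ : List ℕ), OnKeys n T → Accesses n σ → semiCost T σ ≤ K * (opt T σ + n)

/-- Deleting accesses increases the cost of semisplaying at most by the factor `K` (and `K n`). -/
def Monotonic (n K : ℕ) : Prop :=
  ∀ (T : BT) (σ τ : List ℕ), OnKeys n T → Accesses n τ → σ.Sublist τ → semiCost T σ ≤ K * (semiCost T τ + n)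

/-- The same, only for `τ` with inserted accesses at depth at most 3 and accesses of `σ` at depth at most 1
(then the cost of `τ` is between its length and seven times its length). -/
def NearMonotonic (n K : ℕ) : Prop :=
  ∀ (T : BT) (σ τ : List ℕ), OnKeys n T → Accesses n τ → Near T σ τ → semiCost T σ ≤ K * (τ.length + n)

theorem result :
    ((∃ K, ∀ n, Competitive n K) ↔ ∃ K, ∀ n, NearMonotonic n K) ∧
    ∃ A : ℕ, ∀ n : ℕ,
      (∀ (T : BT) (σ : List ℕ), OnKeys n T → Accesses n σ →
        ∃ τ : List ℕ, Accesses n τ ∧ Near T σ τ ∧ τ.length ≤ A * (opt T σ + n)) ∧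
      (∀ (T : BT) (σ τ : List ℕ), OnKeys n T → Accesses n τ → Near T σ τ → opt T σ ≤ 7 * τ.length) ∧
      (∀ K, Competitive n K → Monotonic n K) ∧
      (∀ K, NearMonotonic n K → Competitive n (A * K)) := by
  obtain ⟨A, hA⟩ := BT.main
  have key : ∀ n K, Competitive n K → Monotonic n K := fun n K h => ((hA n).2.2 K).1 h
  refine ⟨⟨fun ⟨K, hK⟩ => ⟨7 * K, fun n T σ τ hT hτ hN => ?_⟩, fun ⟨K, hK⟩ => ⟨A * K, fun n => ?_⟩⟩,
    A, fun n => ⟨(hA n).1, (hA n).2.1, fun K => key n K, fun K => ((hA n).2.2 K).2⟩⟩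
  · refine (key n K (hK n) T σ τ hT hτ hN.sublist).trans ?_
    have h1 := hN.cost
    calc K * (semiCost T τ + n) ≤ K * (7 * (τ.length + n)) := Nat.mul_le_mul_left K (by omega)
      _ = 7 * K * (τ.length + n) := by ring
  · exact ((hA n).2.2 K).2 (hK n)

end Pool.Agent.Results.MP_fec8f2_lc.SimulationTheorem
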